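import Pool.Agent.Helper32.ExpN.Forms
import Pool.Agent.Helper32.ExpN.Params

/-!
# Rational approximations to the powers of `e`

`|q e^d - p| ≥ exp(-C (d^2 + log q) log(2 + d + log q))` for all naturals `d, q ≥ 1` and integers `p`.
-/

set_option autoImplicit false

namespace Pool.Agent.Helper95.LD

open Polynomial Finset Pool.Agent.Helper32.ExpN
open scoped Nat

theorem log244 : Real.log 244 ≤ 6 := by
  rw [Real.log_le_iff_le_exp (by norm_num)]
  have h1 : (2.7 : ℝ) ≤ Real.exp 1 := by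
    have := Real.exp_one_gt_d9
    linarith
  calc (244 : ℝ) ≤ (2.7 : ℝ) ^ 6 := by norm_num
    _ ≤ Real.exp 1 ^ 6 := pow_le_pow_left₀ (by norm_num) h1 6
    _ = Real.exp 6 := by
        rw [← Real.exp_nat_mul]
        norm_num

/-- the bound with a given prime -/
theorem core (D q : ℕ) (hD : 1 ≤ D) (hq : 1 ≤ q) (P : ℤ) (p : ℕ) (hp : p.Prime) (hDp : D < p)
    (hbig : Real.log 2 + Real.log q + D + 2 * p * Real.log D ≤ p * Real.log p - p - Real.log p) :
    Real.exp (-(2 * p * Real.log (2 * p) + 2 * p * Real.log (1 + D))) / 2 ≤ |(q : ℝ) * Real.exp D - P| := by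
  have hj : Function.Injective (![0, D] : Fin 2 → ℕ) := by
    intro a b hab
    fin_cases a <;> fin_cases b <;> simp_all <;> omega
  obtain ⟨T, hdet, hT0, hT⟩ : ∃ T : Matrix (Fin 2) (Fin 2) ℤ, T.det ≠ 0 ∧
      (∀ i, |(T i 0 : ℝ)| ≤ (((1 + 1) * p)! : ℝ) * (1 + (D : ℝ)) ^ ((1 + 1) * p) / ((p - 1)! : ℝ)) ∧
      (∀ i, |(T i 1 : ℝ) - Real.exp D * T i 0| ≤
        Real.exp D * (D : ℝ) ^ ((1 + 1) * p) / ((p - 1)! : ℝ)) := by
    obtain ⟨T, hdet, hT0, hT⟩ := hermite_forms (d := 1) ![0, D] hj rfl p hp D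
      (by intro m; fin_cases m <;> simp) hDp
    exact ⟨T, hdet, hT0, fun i => hT i 1⟩
  have hq0 : (0 : ℝ) < q := by exact_mod_cast hq
  have hD0 : (0 : ℝ) < D := by exact_mod_cast hD
  have hp0 : (0 : ℝ) < p := by exact_mod_cast hp.pos
  have hfac : (0 : ℝ) < ((p - 1)! : ℝ) := by exact_mod_cast Nat.factorial_pos _
  have hfac1 : (1 : ℝ) ≤ ((p - 1)! : ℝ) := by exact_mod_cast Nat.factorial_pos _
  -- a row which is not orthogonal
  have hrow : ∃ i, (q : ℤ) * T i 1 - P * T i 0 ≠ 0 := by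
    by_contra hcon
    push Not at hcon
    have hv : T.mulVec ![-P, (q : ℤ)] = 0 := by
      ext i
      have := hcon i
      simp only [Matrix.mulVec, dotProduct, Fin.sum_univ_two, Matrix.cons_val_zero, Matrix.cons_val_one,
        Pi.zero_apply]
      linarith
    have h0 := Matrix.eq_zero_of_mulVec_eq_zero hdet hv
    have h1 := congrFun h0 1
    simp at h1
    omega
  obtain ⟨i, hi⟩ := hrow
  have h1 : (1 : ℝ) ≤ |(((q : ℤ) * T i 1 - P * T i 0 : ℤ) : ℝ)| := by
    exact_mod_cast Int.one_le_abs hi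
  have hTi := hT i
  have hT0i := hT0 i
  have e1 : (((q : ℤ) * T i 1 - P * T i 0 : ℤ) : ℝ) =
      q * ((T i 1 : ℝ) - Real.exp D * T i 0) + T i 0 * (q * Real.exp D - P) := by
    push_cast
    ring
  rw [e1] at h1
  have h2 := h1.trans (abs_add_le _ _)
  rw [abs_mul, abs_mul, abs_of_pos hq0] at h2
  -- the error term is at most one half
  have h3 : (q : ℝ) * |(T i 1 : ℝ) - Real.exp D * T i 0| ≤ 1 / 2 := by
    refine (mul_le_mul_of_nonneg_left hTi hq0.le).trans ?_
    have hpos : 0 < Real.exp D * (D : ℝ) ^ ((1 + 1) * p) := by positivity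
    rw [← mul_div_assoc, div_le_iff₀ hfac]
    have h4 := log_factorial_pred_ge p hp.one_le
    have h5 : Real.log (2 * (q * (Real.exp D * (D : ℝ) ^ ((1 + 1) * p)))) ≤ Real.log ((p - 1)! : ℝ) := by
      rw [Real.log_mul (by norm_num) (by positivity), Real.log_mul hq0.ne' hpos.ne',
        Real.log_mul (Real.exp_pos _).ne' (by positivity), Real.log_exp, Real.log_pow]
      push_cast
      linarith
    have h6 := (Real.log_le_log_iff (by positivity) hfac).1 h5
    linarith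
  have h4 : 1 / 2 ≤ |(T i 0 : ℝ)| * |(q : ℝ) * Real.exp D - P| := by linarith
  -- the size of `T i 0`
  have h5 : |(T i 0 : ℝ)| ≤ Real.exp (2 * p * Real.log (2 * p) + 2 * p * Real.log (1 + D)) := by
    have h6 : (((1 + 1) * p)! : ℝ) * (1 + (D : ℝ)) ^ ((1 + 1) * p) / ((p - 1)! : ℝ) ≤
        (((1 + 1) * p)! : ℝ) * (1 + (D : ℝ)) ^ ((1 + 1) * p) :=
      div_le_self (by positivity) hfac1
    refine (hT0i.trans h6).trans ?_
    have hf2 : (0 : ℝ) < (((1 + 1) * p)! : ℝ) := by exact_mod_cast Nat.factorial_pos _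
    apply le_exp_of_log_le (by positivity)
    rw [Real.log_mul hf2.ne' (by positivity), Real.log_pow]
    have h7 := log_factorial_le ((1 + 1) * p)
    push_cast at h7 ⊢
    linarith
  have h6 : 1 / 2 ≤ Real.exp (2 * p * Real.log (2 * p) + 2 * p * Real.log (1 + D)) *
      |(q : ℝ) * Real.exp D - P| := h4.trans (mul_le_mul_of_nonneg_right h5 (abs_nonneg _))
  rw [Real.exp_neg]
  set E := Real.exp (2 * p * Real.log (2 * p) + 2 * p * Real.log (1 + D)) with hE
  have hE0 : 0 < E := Real.exp_pos _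
  calc E⁻¹ / 2 = E⁻¹ * (1 / 2) := by ring
    _ ≤ E⁻¹ * (E * |(q : ℝ) * Real.exp D - P|) := mul_le_mul_of_nonneg_left h6 (by positivity)
    _ = |(q : ℝ) * Real.exp D - P| := by
        rw [← mul_assoc, inv_mul_cancel₀ hE0.ne', one_mul]

/-- **Powers of `e` are not well approximable by rationals.** -/
theorem exp_dioph : ∃ C : ℝ, 0 < C ∧ ∀ (d q : ℕ) (P : ℤ), 1 ≤ d → 1 ≤ q →
    Real.exp (-(C * (((d : ℝ) ^ 2 + Real.log q) * Real.log (2 + d + Real.log q)))) ≤ |(q : ℝ) * Real.exp d - P| := by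
  refine ⟨2200, by norm_num, ?_⟩
  intro D q P hD hq
  have hq1 : (1 : ℝ) ≤ q := by exact_mod_cast hq
  have hD1 : (1 : ℝ) ≤ D := by exact_mod_cast hD
  set x : ℝ := Real.log q with hx
  have hx0 : 0 ≤ x := Real.log_nonneg hq1
  set m : ℕ := 60 * D ^ 2 + ⌈x⌉₊ with hm
  have hm0 : m ≠ 0 := by
    have : 0 < D ^ 2 := by positivity
    omega
  obtain ⟨p, hp, hmp, hp2⟩ := Nat.exists_prime_lt_and_le_two_mul m hm0
  have hmR : (m : ℝ) = 60 * (D : ℝ) ^ 2 + (⌈x⌉₊ : ℝ) := by
    rw [hm]; push_cast; ring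
  have hc1 : x ≤ (⌈x⌉₊ : ℝ) := Nat.le_ceil x
  have hc2 : (⌈x⌉₊ : ℝ) < x + 1 := Nat.ceil_lt_add_one hx0
  have hmp' : (m : ℝ) < p := by exact_mod_cast hmp
  have hp2' : (p : ℝ) ≤ 2 * m := by exact_mod_cast hp2
  have hp0 : (0 : ℝ) < p := by exact_mod_cast hp.pos
  have hD2 : (D : ℝ) ≤ (D : ℝ) ^ 2 := by nlinarith
  have hDp : D < p := by
    have : (D : ℝ) < p := by nlinarith
    exact_mod_cast this
  have hbig : Real.log 2 + Real.log q + D + 2 * p * Real.log D ≤ p * Real.log p - p - Real.log p := by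
    have h1 : 4 + 2 * Real.log D ≤ Real.log p := by
      have h2 : Real.exp 4 ≤ 60 := by
        have h3 : Real.exp 1 ≤ 2.72 := by
          have := Real.exp_one_lt_d9
          linarith
        calc Real.exp 4 = Real.exp 1 ^ 4 := by
              rw [← Real.exp_nat_mul]
              norm_num
          _ ≤ (2.72 : ℝ) ^ 4 := pow_le_pow_left₀ (Real.exp_pos _).le h3 4
          _ ≤ 60 := by norm_num
      have h3 : Real.exp 4 * (D : ℝ) ^ 2 ≤ p := by nlinarith
      have h4 := Real.log_le_log (by positivity) h3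
      rw [Real.log_mul (Real.exp_pos _).ne' (by positivity), Real.log_exp, Real.log_pow] at h4
      push_cast at h4
      exact h4
    have h5 : Real.log p ≤ p := by
      have := Real.log_le_sub_one_of_pos hp0
      linarith
    have h6 : Real.log 2 ≤ 1 := by
      have := Real.log_two_lt_d9
      linarith
    have h7 : p * (4 + 2 * Real.log D) ≤ p * Real.log p := mul_le_mul_of_nonneg_left h1 hp0.le
    have h8 : x + D + 1 ≤ p := by nlinarith
    rw [← hx]
    nlinarith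
  have hcore := core D q hD hq P p hp hDp hbig
  refine le_trans ?_ hcore
  set ℓ : ℝ := Real.log (2 + D + x) with hℓ
  set y : ℝ := (D : ℝ) ^ 2 + x with hy
  have hy1 : 1 ≤ y := by nlinarith
  have hℓ1 : 1 ≤ ℓ := by
    rw [hℓ, Real.le_log_iff_exp_le (by linarith)]
    have := Real.exp_one_lt_d9
    linarith
  have hlogD : Real.log (1 + D) ≤ ℓ := Real.log_le_log (by linarith) (by linarith)
  have hlogD0 : 0 ≤ Real.log (1 + D) := Real.log_nonneg (by linarith)
  have hpy : (p : ℝ) ≤ 122 * y := by nlinarith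
  have hlogy : Real.log y ≤ 2 * ℓ := by
    have h1 : y ≤ (2 + D + x) ^ 2 := by rw [hy]; nlinarith
    have h2 := Real.log_le_log (by linarith) h1
    rw [Real.log_pow] at h2
    push_cast at h2
    exact h2
  have hlogp : Real.log (2 * p) ≤ 8 * ℓ := by
    have h1 : (2 : ℝ) * p ≤ 244 * y := by linarith
    have h2 := Real.log_le_log (by positivity) h1
    rw [Real.log_mul (x := (244 : ℝ)) (by norm_num) (by linarith)] at h2
    have := log244
    linarith
  have hlogp0 : 0 ≤ Real.log (2 * p) := by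
    apply Real.log_nonneg
    have : (1 : ℝ) ≤ p := by exact_mod_cast hp.one_le
    linarith
  have hA : 2 * p * Real.log (2 * p) ≤ 2 * (122 * y) * (8 * ℓ) := by
    apply mul_le_mul _ hlogp hlogp0 (by positivity)
    linarith
  have hB : 2 * p * Real.log (1 + D) ≤ 2 * (122 * y) * ℓ := by
    apply mul_le_mul _ hlogD hlogD0 (by positivity)
    linarith
  have hyl : 1 ≤ y * ℓ := by nlinarith
  have hfin : 2 * p * Real.log (2 * p) + 2 * p * Real.log (1 + D) + 1 ≤ 2200 * (y * ℓ) := by nlinarith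
  have h2 : Real.exp (-1) ≤ 1 / 2 := by
    rw [Real.exp_neg]
    have h3 : (2 : ℝ) ≤ Real.exp 1 := by
      have := Real.exp_one_gt_d9
      linarith
    rw [one_div]
    exact inv_anti₀ (by norm_num) h3
  calc Real.exp (-(2200 * (y * ℓ))) ≤
        Real.exp (-(2 * p * Real.log (2 * p) + 2 * p * Real.log (1 + D)) + -1) := by
        apply Real.exp_le_exp.2
        linarith
    _ = Real.exp (-(2 * p * Real.log (2 * p) + 2 * p * Real.log (1 + D))) * Real.exp (-1) := Real.exp_add _ _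
    _ ≤ Real.exp (-(2 * p * Real.log (2 * p) + 2 * p * Real.log (1 + D))) * (1 / 2) :=
        mul_le_mul_of_nonneg_left h2 (Real.exp_pos _).le
    _ = _ := by ring

/-- the same with one exponent `κ > 2` -/
theorem exp_dioph_pow {κ : ℝ} (hκ : 2 < κ) : ∃ C : ℝ, 0 < C ∧ ∀ (d q : ℕ) (P : ℤ), 1 ≤ d → 1 ≤ q →
    Real.exp (-(C * ((d : ℝ) + Real.log q) ^ κ)) ≤ |(q : ℝ) * Real.exp d - P| := by
  obtain ⟨C, hC, h⟩ := exp_dioph
  have hε : 0 < κ - 2 := by linarith
  refine ⟨C * (3 ^ (κ - 2) / (κ - 2)), by positivity, ?_⟩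
  intro d q P hd hq
  refine le_trans ?_ (h d q P hd hq)
  apply Real.exp_le_exp.2
  apply neg_le_neg
  have hq1 : (1 : ℝ) ≤ q := by exact_mod_cast hq
  have hD1 : (1 : ℝ) ≤ d := by exact_mod_cast hd
  set x : ℝ := Real.log q with hx
  have hx0 : 0 ≤ x := Real.log_nonneg hq1
  have h1 : (d : ℝ) ^ 2 + x ≤ ((d : ℝ) + x) ^ 2 := by nlinarith
  have h2 : Real.log (2 + d + x) ≤ 3 ^ (κ - 2) * ((d : ℝ) + x) ^ (κ - 2) / (κ - 2) := by
    refine (Real.log_le_rpow_div (by linarith) hε).trans ?_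
    rw [← Real.mul_rpow (by norm_num) (by linarith)]
    apply div_le_div_of_nonneg_right _ hε.le
    exact Real.rpow_le_rpow (by linarith) (by linarith) hε.le
  have h3 : 0 ≤ Real.log (2 + d + x) := Real.log_nonneg (by linarith)
  have h4 : ((d : ℝ) + x) ^ κ = ((d : ℝ) + x) ^ 2 * ((d : ℝ) + x) ^ (κ - 2) := by
    rw [← Real.rpow_natCast, ← Real.rpow_add (by linarith)]
    congr 1
    push_cast
    ring
  calc C * (((d : ℝ) ^ 2 + x) * Real.log (2 + d + x)) ≤
        C * (((d : ℝ) + x) ^ 2 * (3 ^ (κ - 2) * ((d : ℝ) + x) ^ (κ - 2) / (κ - 2))) := by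
        apply mul_le_mul_of_nonneg_left _ hC.le
        exact mul_le_mul h1 h2 h3 (by positivity)
    _ = C * (3 ^ (κ - 2) / (κ - 2)) * ((d : ℝ) + x) ^ κ := by
        rw [h4]
        ring

end Pool.Agent.Helper95.LD
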