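import Pool.Agent.Helper41.LD.Defs
import Pool.Agent.Helper95.LD.ExpDioph

/-!
# Project LD, block E: the arithmetic condition for `e`
-/

set_option autoImplicit false

namespace Pool.Agent.Helper95.LD

open Pool.Agent.Helper41.LD

theorem dioph_exp : Dioph (Real.exp 1) 3 := by
  obtain ⟨C, hC, h⟩ := exp_dioph_pow (κ := 3) (by norm_num)
  refine ⟨C, hC, ?_⟩
  intro d q hd hq p
  have h1 := h d q p hd hq
  have e : Real.exp 1 ^ d = Real.exp d := by
    rw [← Real.exp_nat_mul, mul_one]
  rw [e]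
  have e2 : ((d : ℝ) + Real.log q) ^ (3 : ℝ) = ((d : ℝ) + Real.log q) ^ (3 : ℕ) := by
    rw [← Real.rpow_natCast]
    norm_num
  rwa [e2] at h1

end Pool.Agent.Helper95.LD
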